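import Pool.Agent.H84.QC.Defs

/-! Covering and packing numbers (auxiliary file for modules DA, DB, DC, NET). -/

open Filter Topology Metric Set
open scoped ENNReal

namespace QCA

section M

variable {X : Type*} [MetricSpace X]

/-- pairwise distances larger than `r` -/
def PkSep (r : ℝ) (T : Finset X) : Prop := ∀ x ∈ T, ∀ y ∈ T, x ≠ y → r < dist x y

theorem PkSep.subset {r : ℝ} {T T' : Finset X} (h : PkSep r T) (hs : T' ⊆ T) : PkSep r T' :=
  fun x hx y hy hxy => h x (hs hx) y (hs hy) hxy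

theorem PkSep.mono {r r' : ℝ} {T : Finset X} (h : PkSep r T) (hr : r' ≤ r) : PkSep r' T :=
  fun x hx y hy hxy => lt_of_le_of_lt hr (h x hx y hy hxy)

theorem pk_coverNum_le {r : ℝ} {F : Set X} (S : Set (Set X))
    (h1 : ∀ s ∈ S, ediam s ≤ ENNReal.ofReal r) (h2 : F ⊆ ⋃₀ S) : coverNum r F ≤ S.encard :=
  iInf₂_le S ⟨h1, h2⟩

theorem pk_coverNum_le_finset {r : ℝ} {F : Set X} (T : Finset X)
    (hF : F ⊆ ⋃ t ∈ T, closedBall t (r / 2)) : coverNum r F ≤ T.card := by
  classical
  have h1 : coverNum r F ≤ ((T.image (fun t => closedBall t (r / 2)) : Finset (Set X)) :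
      Set (Set X)).encard := by
    refine pk_coverNum_le _ ?_ ?_
    · intro s hs
      obtain ⟨t, _, rfl⟩ := Finset.mem_image.1 (Finset.mem_coe.1 hs)
      refine Metric.ediam_le fun x hx y hy => ?_
      rw [edist_dist]
      refine ENNReal.ofReal_le_ofReal ?_
      have h1 := Metric.mem_closedBall.1 hx
      have h2 := Metric.mem_closedBall.1 hy
      have h3 := dist_triangle_right x y t
      linarith
    · intro x hx
      obtain ⟨t, ht, hxt⟩ := Set.mem_iUnion₂.1 (hF hx)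
      exact Set.mem_sUnion.2 ⟨closedBall t (r / 2),
        Finset.mem_coe.2 (Finset.mem_image_of_mem _ ht), hxt⟩
  refine h1.trans ?_
  rw [Set.encard_coe_eq_coe_finsetCard]
  exact_mod_cast Finset.card_image_le

theorem pk_card_le_cover {r : ℝ} {T : Finset X} {F : Set X} (hr : 0 ≤ r) (hT : PkSep r T)
    (hTF : (T : Set X) ⊆ F) (S : Set (Set X))
    (h1 : ∀ s ∈ S, ediam s ≤ ENNReal.ofReal r) (h2 : F ⊆ ⋃₀ S) : (T.card : ℕ∞) ≤ S.encard := by
  classical
  have hex : ∀ t : (T : Set X), ∃ s : S, (t : X) ∈ (s : Set X) := fun t => by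
    obtain ⟨s, hs, hts⟩ := Set.mem_sUnion.1 (h2 (hTF t.2))
    exact ⟨⟨s, hs⟩, hts⟩
  choose c hc using hex
  have hinj : Function.Injective c := by
    intro t t' h
    by_contra hne
    have h3 : r < dist (t : X) t' := hT t t.2 t' t'.2 (fun h => hne (Subtype.ext h))
    have h4 : edist (t : X) t' ≤ ENNReal.ofReal r :=
      le_trans (Metric.edist_le_ediam_of_mem (hc t) (by rw [h]; exact hc t')) (h1 _ (c t).2)
    rw [edist_dist] at h4
    have h5 := (ENNReal.ofReal_le_ofReal_iff hr).1 h4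
    linarith
  have h6 : (T : Set X).encard ≤ S.encard := Function.Embedding.encard_le ⟨c, hinj⟩
  rwa [Set.encard_coe_eq_coe_finsetCard] at h6

theorem pk_card_le_coverNum {r : ℝ} {T : Finset X} {F : Set X} (hr : 0 ≤ r) (hT : PkSep r T)
    (hTF : (T : Set X) ⊆ F) : (T.card : ℕ∞) ≤ coverNum r F :=
  le_iInf₂ fun S hS => pk_card_le_cover hr hT hTF S hS.1 hS.2

/-- packing bounds give maximal separated sets -/
theorem pk_exists_net {r : ℝ} (hr : 0 ≤ r) {F : Set X} {N : ℕ}
    (h : ∀ T : Finset X, (T : Set X) ⊆ F → PkSep r T → T.card ≤ N) :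
    ∃ T : Finset X, (T : Set X) ⊆ F ∧ PkSep r T ∧ F ⊆ ⋃ t ∈ T, closedBall t r := by
  classical
  let P : ℕ → Prop := fun k => ∃ T : Finset X, (T : Set X) ⊆ F ∧ PkSep r T ∧ T.card = k
  have hP0 : ∃ k, k ≤ N ∧ P k := ⟨0, Nat.zero_le _, ∅, by simp, by intro x hx; simp at hx, rfl⟩
  obtain ⟨T, hTF, hTs, hTc⟩ : P (Nat.findGreatest P N) := by
    obtain ⟨k, hk, hPk⟩ := hP0
    exact Nat.findGreatest_spec hk hPk
  refine ⟨T, hTF, hTs, fun x hx => ?_⟩
  by_contra hcon
  have hfar : ∀ t ∈ T, r < dist x t := by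
    intro t ht
    by_contra hle
    exact hcon (Set.mem_iUnion₂.2 ⟨t, ht, mem_closedBall.2 (not_lt.1 hle)⟩)
  have hxT : x ∉ T := fun hxT => by
    have := hfar x hxT
    rw [dist_self] at this
    linarith
  have hsep : PkSep r (insert x T) := by
    intro y hy z hz hyz
    rcases Finset.mem_insert.1 hy with rfl | hy' <;> rcases Finset.mem_insert.1 hz with rfl | hz'
    · exact absurd rfl hyz
    · exact hfar z hz'
    · rw [dist_comm]; exact hfar y hy'
    · exact hTs y hy' z hz' hyz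
  have hsub : ((insert x T : Finset X) : Set X) ⊆ F := by
    intro y hy
    rcases Finset.mem_insert.1 (Finset.mem_coe.1 hy) with rfl | hy'
    · exact hx
    · exact hTF hy'
  have hcard : (insert x T).card = T.card + 1 := Finset.card_insert_of_notMem hxT
  have hle := h _ hsub hsep
  have hPs : P (T.card + 1) := ⟨_, hsub, hsep, hcard⟩
  have := Nat.le_findGreatest (P := P) (n := N) (by rw [← hcard]; exact hle) hPs
  omega

theorem pk_coverNum_le_of_packing {r : ℝ} (hr : 0 ≤ r) {F : Set X} {N : ℕ}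
    (h : ∀ T : Finset X, (T : Set X) ⊆ F → PkSep (r / 2) T → T.card ≤ N) :
    coverNum r F ≤ N := by
  obtain ⟨T, hTF, hTs, hc⟩ := pk_exists_net (by linarith : (0:ℝ) ≤ r / 2) h
  refine (pk_coverNum_le_finset T hc).trans ?_
  exact_mod_cast h T hTF hTs

theorem pk_toENNReal_le_of_nat {r : ℝ} {F : Set X} {N : ℕ} {x : ℝ}
    (h : coverNum r F ≤ N) (hx : (N : ℝ) ≤ x) :
    ((coverNum r F : ℕ∞) : ℝ≥0∞) ≤ ENNReal.ofReal x := by
  calc ((coverNum r F : ℕ∞) : ℝ≥0∞) ≤ (((N : ℕ) : ℕ∞) : ℝ≥0∞) := by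
        exact_mod_cast h
    _ = ENNReal.ofReal (N : ℝ) := by
        rw [ENNReal.ofReal_natCast]
        rfl
    _ ≤ ENNReal.ofReal x := ENNReal.ofReal_le_ofReal hx

theorem pk_card_le_of_coverNum_le {r : ℝ} {T : Finset X} {F : Set X} {x : ℝ} (hr : 0 ≤ r)
    (hx : 0 ≤ x) (h : ((coverNum r F : ℕ∞) : ℝ≥0∞) ≤ ENNReal.ofReal x) (hT : PkSep r T)
    (hTF : (T : Set X) ⊆ F) : (T.card : ℝ) ≤ x := by
  have h1 := pk_card_le_coverNum hr hT hTF
  have h2 : (((T.card : ℕ) : ℕ∞) : ℝ≥0∞) ≤ ((coverNum r F : ℕ∞) : ℝ≥0∞) := by exact_mod_cast h1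
  have h3 : ENNReal.ofReal (T.card : ℝ) ≤ ENNReal.ofReal x := by
    rw [ENNReal.ofReal_natCast]
    exact h2.trans h
  exact (ENNReal.ofReal_le_ofReal_iff hx).1 h3

/-- a finite set with pairwise distances `> r` has pairwise distances `> r'` for some `r' > r` -/
theorem PkSep.exists_gt {r : ℝ} {T : Finset X} (h : PkSep r T) :
    ∀ b : ℝ, r < b → ∃ r' : ℝ, r < r' ∧ r' < b ∧ PkSep r' T := by
  classical
  intro b hb
  let P : Finset (X × X) := (T ×ˢ T).filter (fun q => q.1 ≠ q.2)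
  have hP : ∀ q ∈ P, r < dist q.1 q.2 := by
    intro q hq
    obtain ⟨h1, h2⟩ := Finset.mem_filter.1 hq
    obtain ⟨h3, h4⟩ := Finset.mem_product.1 h1
    exact h _ h3 _ h4 h2
  have key : ∀ Q : Finset (X × X), (∀ q ∈ Q, r < dist q.1 q.2) →
      ∃ r' : ℝ, r < r' ∧ r' < b ∧ ∀ q ∈ Q, r' < dist q.1 q.2 := by
    intro Q
    induction Q using Finset.induction_on with
    | empty => exact fun _ => ⟨(r + b) / 2, by linarith, by linarith, by simp⟩
    | insert q Q hq ih =>
      intro hQ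
      obtain ⟨r', h1, h2, h3⟩ := ih fun p hp => hQ p (Finset.mem_insert_of_mem hp)
      have h4 := hQ q (Finset.mem_insert_self _ _)
      refine ⟨min r' ((r + dist q.1 q.2) / 2), lt_min h1 (by linarith),
        lt_of_le_of_lt (min_le_left _ _) h2, fun p hp => ?_⟩
      rcases Finset.mem_insert.1 hp with rfl | hp
      · exact lt_of_le_of_lt (min_le_right _ _) (by linarith)
      · exact lt_of_le_of_lt (min_le_left _ _) (h3 p hp)
  obtain ⟨r', h1, h2, h3⟩ := key P hP
  exact ⟨r', h1, h2, fun x hx y hy hxy => h3 (x, y) (Finset.mem_filter.2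
    ⟨Finset.mem_product.2 ⟨hx, hy⟩, hxy⟩)⟩

end M

section N

variable {V : Type*} [NormedAddCommGroup V] [InnerProductSpace ℝ V]

theorem pkSep_iff {r : ℝ} {T : Finset V} :
    PkSep r T ↔ ∀ a ∈ T, ∀ b ∈ T, a ≠ b → r < ‖a - b‖ := by
  unfold PkSep
  simp only [dist_eq_norm]

/-- packings of balls of a fixed radius are uniformly bounded -/
theorem pk_packing_bound (V : Type*) [NormedAddCommGroup V] [InnerProductSpace ℝ V]
    [FiniteDimensional ℝ V] (R r : ℝ) (hr : 0 < r) : ∃ M : ℕ, ∀ p : V, ∀ T : Finset V,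
    (∀ t ∈ T, dist t p ≤ R) → PkSep r T → T.card ≤ M := by
  classical
  have hprop : ProperSpace V := FiniteDimensional.proper ℝ V
  have htb : TotallyBounded (Metric.closedBall (0 : V) R) :=
    (isCompact_closedBall (0 : V) R).totallyBounded
  obtain ⟨t, htf, hcov⟩ := Metric.totallyBounded_iff.1 htb (r / 2) (by linarith)
  let S : Finset V := htf.toFinset
  refine ⟨S.card, fun p T hT hs => ?_⟩
  let T0 : Finset V := T.image (fun x => x - p)
  have hinj : Function.Injective (fun x : V => x - p) := sub_left_injective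
  have hcard : T0.card = T.card := Finset.card_image_of_injective _ hinj
  have hs0 : PkSep r T0 := by
    intro x hx y hy hxy
    obtain ⟨x', hx', rfl⟩ := Finset.mem_image.1 hx
    obtain ⟨y', hy', rfl⟩ := Finset.mem_image.1 hy
    rw [dist_sub_right]
    exact hs x' hx' y' hy' (fun h => hxy (by rw [h]))
  have hcover : (T0 : Set V) ⊆ ⋃ s ∈ S, Metric.closedBall s (r / 2) := by
    intro x hx
    obtain ⟨x', hx', rfl⟩ := Finset.mem_image.1 (Finset.mem_coe.1 hx)
    have : x' - p ∈ Metric.closedBall (0 : V) R := by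
      rw [Metric.mem_closedBall, dist_zero_right, ← dist_eq_norm]
      exact hT x' hx'
    obtain ⟨s, hs, hxs⟩ := Set.mem_iUnion₂.1 (hcov this)
    exact Set.mem_iUnion₂.2 ⟨s, (by simpa [S] using hs), Metric.ball_subset_closedBall hxs⟩
  have h1 := pk_card_le_coverNum hr.le hs0 (subset_refl _)
  have h2 := pk_coverNum_le_finset S hcover
  have h3 : (T0.card : ℕ∞) ≤ S.card := h1.trans h2
  rw [← hcard]
  exact_mod_cast h3

end N

end QCA
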